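import Pool.Agent.H.MP_9fb79a_gt.A

set_option autoImplicit false

namespace Pool.Agent.H.MP_360cb4_gt

open Set Topology Filter
open Pool.Agent.H.MP_badb58_gt (PS box_open sat sat_sub)
open Pool.Agent.H.MP_9fb79a_gt

lemma gen_unique {Y : Type} [TopologicalSpace Y] [T0Space Y] {y z : Y}
    (h : closure ({y} : Set Y) = closure {z}) : y = z :=
  (inseparable_iff_closure_eq.2 h).eq

lemma SK_sober (X : Type) [TopologicalSpace X] (h0 : T0Space X) (h : QuasiSober X) : SK X := by
  refine ⟨h0, fun x hx => ?_⟩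
  have hirr : IsIrreducible (range x) := by
    refine ⟨range_nonempty x, ?_⟩
    rintro U V hU hV ⟨_, ⟨i, rfl⟩, hi⟩ ⟨_, ⟨j, rfl⟩, hj⟩
    obtain ⟨k, h1, h2⟩ := (((hx i).eventually (hU.mem_nhds hi)).and
      ((hx j).eventually (hV.mem_nhds hj))).exists
    exact ⟨x k, ⟨k, rfl⟩, h1, h2⟩
  obtain ⟨y, hy⟩ := QuasiSober.sober hirr.closure isClosed_closure
  exact ⟨y, hy.symm⟩

lemma SK_homeo (X Y : Type) [TopologicalSpace X] [TopologicalSpace Y] (e : X ≃ₜ Y) (h : SK X) :
    SK Y := by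
  have := h.1
  refine ⟨e.symm.isEmbedding.t0Space, fun c hc => ?_⟩
  obtain ⟨y, hy⟩ := h.2 (e.symm ∘ c) fun j => (e.symm.continuous.tendsto _).comp (hc j)
  refine ⟨e y, ?_⟩
  rw [← image_singleton, ← e.image_closure, ← hy, e.image_closure, ← range_comp]
  congr 2
  ext x; simp

lemma irr_of_det {X : Type} [TopologicalSpace X] {A : Set X}
    (h : ∀ (Y : Type) [TopologicalSpace Y], SK Y → ∀ f : X → Y, Continuous f →
      ∃! y : Y, closure (f '' A) = closure {y}) : IsIrreducible A := by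
  have hP : SK (Prop × Prop) := (WF_of_finite fun K _ => toFinite K).sk
  have key : ∀ U V : Set X, IsOpen U → IsOpen V → ∃ y : Prop × Prop,
      closure ((fun x => (x ∈ U, x ∈ V)) '' A) = closure {y} := fun U V hU hV =>
    (h _ hP _ ((continuous_Prop.2 hU).prodMk (continuous_Prop.2 hV))).exists
  have o1 : IsOpen {q : Prop × Prop | q.1} := continuous_Prop.1 continuous_fst
  have o2 : IsOpen {q : Prop × Prop | q.2} := continuous_Prop.1 continuous_snd
  refine ⟨?_, ?_⟩
  · obtain ⟨y, hy⟩ := key univ univ isOpen_univ isOpen_univ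
    have : y ∈ closure ((fun x : X => (x ∈ univ, x ∈ univ)) '' A) := hy ▸ subset_closure rfl
    exact (closure_nonempty_iff.1 ⟨y, this⟩).of_image
  · rintro U V hU hV ⟨a, ha, ha'⟩ ⟨b, hb, hb'⟩
    obtain ⟨y, hy⟩ := key U V hU hV
    have h1 : (a ∈ U, a ∈ V) ∈ closure {y} := hy ▸ subset_closure ⟨a, ha, rfl⟩
    have h2 : (b ∈ U, b ∈ V) ∈ closure {y} := hy ▸ subset_closure ⟨b, hb, rfl⟩
    obtain ⟨_, h3, rfl⟩ := mem_closure_iff.1 h1 _ o1 ha'
    obtain ⟨_, h4, rfl⟩ := mem_closure_iff.1 h2 _ o2 hb'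
    have h5 := hy ▸ subset_closure (mem_singleton _)
    obtain ⟨_, h6, x, hx, rfl⟩ := mem_closure_iff.1 h5 _ (o1.inter o2) ⟨h3, h4⟩
    exact ⟨x, hx, h6⟩

lemma adequate (X : Type) [TopologicalSpace X] :
    @SK {A : Set X // IsClosed A ∧ ∀ (Y : Type) [TopologicalSpace Y], SK Y →
            ∀ f : X → Y, Continuous f → ∃! y : Y, closure (f '' A) = closure {y}}
        (TopologicalSpace.generateFrom
          {S | ∃ U : Set X, IsOpen U ∧ S = {A | (A.1 ∩ U).Nonempty}}) := by
  let P := {A : Set X // IsClosed A ∧ ∀ (Y : Type) [TopologicalSpace Y], SK Y →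
            ∀ f : X → Y, Continuous f → ∃! y : Y, closure (f '' A) = closure {y}}
  let G : Set (Set P) := {S | ∃ U : Set X, IsOpen U ∧ S = {A | (A.1 ∩ U).Nonempty}}
  letI : TopologicalSpace P := TopologicalSpace.generateFrom G
  have hop : ∀ U : Set X, IsOpen U → IsOpen {A : P | (A.1 ∩ U).Nonempty} := fun U hU =>
    TopologicalSpace.isOpen_generateFrom_of_mem ⟨U, hU, rfl⟩
  have hsub : ∀ A B : P, A ⤳ B → B.1 ⊆ A.1 := by
    intro A B h x hx
    by_contra hxA
    obtain ⟨z, hz⟩ := h.mem_open (hop _ A.2.1.isOpen_compl) ⟨x, hx, hxA⟩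
    exact hz.2 hz.1
  refine ⟨⟨fun A B h => Subtype.ext (subset_antisymm (hsub B A h.specializes')
    (hsub A B h.specializes))⟩, fun c hc => ?_⟩
  have hA : ∀ (Y : Type) [TopologicalSpace Y], SK Y → ∀ f : X → Y, Continuous f →
      ∃! y : Y, closure (f '' closure (⋃ a, (c a).1)) = closure {y} := by
    intro Y _ hY f hf
    have := hY.1
    choose y hy hy' using fun A : P => A.2.2 Y hY f hf
    have hyc : Continuous y := by
      rw [continuous_def]
      intro V hV
      have : y ⁻¹' V = {A : P | (A.1 ∩ f ⁻¹' V).Nonempty} := by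
        ext A
        have h1 : (closure (f '' A.1) ∩ V).Nonempty ↔ (closure {y A} ∩ V).Nonempty := by rw [hy]
        rw [closure_inter_open_nonempty_iff hV, closure_inter_open_nonempty_iff hV,
          singleton_inter_nonempty, ← image_inter_preimage, image_nonempty] at h1
        exact h1.symm
      rw [this]; exact hop _ (hV.preimage hf)
    obtain ⟨z, hz⟩ := hY.2 (y ∘ c) fun j => (hyc.tendsto _).comp (hc j)
    have h2 : closure (f '' closure (⋃ a, (c a).1)) = closure {z} := by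
      rw [closure_image_closure hf, ← hz]
      apply subset_antisymm
      · refine closure_minimal ?_ isClosed_closure
        rintro _ ⟨x, hx, rfl⟩
        obtain ⟨a, ha⟩ := mem_iUnion.1 hx
        have : f x ∈ closure {y (c a)} := hy (c a) ▸ subset_closure ⟨x, ha, rfl⟩
        exact closure_mono (singleton_subset_iff.2 (mem_range_self (f := y ∘ c) a)) this
      · refine closure_minimal ?_ isClosed_closure
        rintro _ ⟨a, rfl⟩
        have : y (c a) ∈ closure (f '' (c a).1) := by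
          rw [hy]; exact subset_closure (mem_singleton _)
        exact closure_mono (image_mono (subset_iUnion (fun a => (c a).1) a)) this
    exact ⟨z, h2, fun w hw => gen_unique (hw.symm.trans h2)⟩
  refine ⟨⟨closure (⋃ a, (c a).1), isClosed_closure, hA⟩, subset_antisymm ?_ ?_⟩
  · refine closure_minimal ?_ isClosed_closure
    rintro _ ⟨a, rfl⟩
    rw [← specializes_iff_mem_closure, specializes_iff_pure, TopologicalSpace.nhds_generateFrom]
    refine le_iInf₂ fun S hS => ?_
    obtain ⟨h1, U, hU, rfl⟩ := hS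
    rw [Filter.le_principal_iff, Filter.mem_pure]
    exact h1.mono (inter_subset_inter_left _
      ((subset_iUnion (fun a => (c a).1) a).trans subset_closure))
  · refine closure_minimal (singleton_subset_iff.2 ?_) isClosed_closure
    refine mem_closure_of_tendsto (f := c) (b := atTop) ?_ (Eventually.of_forall fun k => ⟨k, rfl⟩)
    refine TopologicalSpace.tendsto_nhds_generateFrom_iff.2 ?_
    rintro _ ⟨U, hU, rfl⟩ h
    have h' : (closure (⋃ a, (c a).1) ∩ U).Nonempty := h
    rw [closure_inter_open_nonempty_iff hU] at h'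
    obtain ⟨x, hx, hxU⟩ := h'
    obtain ⟨a, ha⟩ := mem_iUnion.1 hx
    exact (hc a) ((hop U hU).mem_nhds ⟨x, ha, hxU⟩)

lemma rudin {Y : Type} [TopologicalSpace Y] (hY : SK Y) (c : ℕ → PS Y)
    (hc : ∀ j, Tendsto c atTop (𝓝 (c j))) {C : Set Y} (hC : IsClosed C)
    (h : ∀ n, ((c n).1 ∩ C).Nonempty) : ∃ y ∈ C, ∀ n, y ∈ (c n).1 := by
  obtain ⟨A, hAC, hA⟩ := zorn_superset_nonempty
    {A : Set Y | IsClosed A ∧ ∀ n, ((c n).1 ∩ A).Nonempty} (by
      intro T hT hch hne
      refine ⟨⋂₀ T, ⟨isClosed_sInter fun A hA => (hT hA).1, fun n => ?_⟩,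
        fun A hA => sInter_subset_of_mem hA⟩
      have := hne.to_subtype
      rw [sInter_eq_iInter]
      by_contra hcon
      obtain ⟨A, hA⟩ := (c n).2.2.1.elim_directed_family_closed (fun A : T => A.1)
        (fun A => (hT A.2).1) (not_nonempty_iff_eq_empty.1 hcon) (by
          intro A B
          rcases hch.total A.2 B.2 with h | h
          · exact ⟨A, subset_rfl, h⟩
          · exact ⟨B, h, subset_rfl⟩)
      exact ((hT A.2).2 n).ne_empty hA) C ⟨hC, h⟩
  choose s hs hs' using hA.prop.2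
  have hmin : ∀ B, IsClosed B → B ⊆ A → (∀ n, ((c n).1 ∩ B).Nonempty) → A ⊆ B :=
    fun B h1 h2 h3 => hA.le_of_le ⟨h1, h3⟩ h2
  have hst : ∀ j, Tendsto s atTop (𝓝 (s j)) := by
    intro j
    refine tendsto_nhds.2 fun V hV hj => ?_
    obtain ⟨n, hn⟩ : ∃ n, ¬ ((c n).1 ∩ (A \ V)).Nonempty := by
      by_contra hcon
      push Not at hcon
      exact (hmin _ (hA.prop.1.sdiff hV) sdiff_subset hcon (hs' j)).2 hj
    have h1 : (c n).1 ⊆ (A \ V)ᶜ := fun x hx hx' => hn ⟨x, hx, hx'⟩
    have h2 := (hc n).eventually ((box_open (hA.prop.1.sdiff hV).isOpen_compl).mem_nhds h1)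
    refine h2.mono fun k hk => ?_
    by_contra hcon
    exact hk (hs k) ⟨hs' k, hcon⟩
  obtain ⟨y, hy⟩ := hY.2 s hst
  have hyA : y ∈ A := closure_minimal (range_subset_iff.2 hs') hA.prop.1
    (hy ▸ subset_closure rfl : y ∈ closure (range s))
  refine ⟨y, hAC hyA, fun n => (c n).2.2.2 y fun U hU h => ?_⟩
  have h1 : s n ∈ closure {y} := hy ▸ subset_closure ⟨n, rfl⟩
  obtain ⟨_, h2, rfl⟩ := mem_closure_iff.1 h1 U hU (h (hs n))
  exact h2

lemma smyth (Y : Type) [TopologicalSpace Y] (hY : SK Y) : SK (PS Y) := by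
  have hsub : ∀ A B : PS Y, A ⤳ B → A.1 ⊆ B.1 := fun A B h x hx =>
    B.2.2.2 x fun U hU hB => h.mem_open (box_open hU) hB hx
  refine ⟨⟨fun A B h => Subtype.ext (subset_antisymm (hsub A B h.specializes)
    (hsub B A h.specializes'))⟩, fun c hc => ?_⟩
  have key : ∀ U, IsOpen U → (⋂ n, (c n).1) ⊆ U → ∃ n, (c n).1 ⊆ U := by
    intro U hU h
    by_contra hcon
    push Not at hcon
    obtain ⟨y, h1, h2⟩ := rudin hY c hc hU.isClosed_compl fun n => not_subset.1 (hcon n)
    exact h1 (h (mem_iInter.2 h2))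
  have hne : (⋂ n, (c n).1).Nonempty := by
    obtain ⟨y, -, h2⟩ := rudin hY c hc isClosed_univ fun n => by simpa using (c n).2.1
    exact ⟨y, mem_iInter.2 h2⟩
  have hco : IsCompact (⋂ n, (c n).1) := by
    refine isCompact_of_finite_subcover fun U hU h => ?_
    obtain ⟨n, hn⟩ := key _ (isOpen_iUnion hU) h
    obtain ⟨t, ht⟩ := (c n).2.2.1.elim_finite_subcover U hU hn
    exact ⟨t, (iInter_subset _ n).trans ht⟩
  refine ⟨⟨⋂ n, (c n).1, hne, hco, fun x hx => mem_iInter.2 fun n => (c n).2.2.2 x fun U hU h =>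
    hx U hU ((iInter_subset _ n).trans h)⟩, subset_antisymm ?_ ?_⟩
  · refine closure_minimal ?_ isClosed_closure
    rintro _ ⟨n, rfl⟩
    rw [mem_closure_iff]
    intro S hS hn
    obtain ⟨U, -, h2, h3⟩ := box_basis hS hn
    exact ⟨_, h3 _ ((iInter_subset _ n).trans h2), rfl⟩
  · refine closure_minimal (singleton_subset_iff.2 ?_) isClosed_closure
    rw [mem_closure_iff]
    intro S hS hn
    obtain ⟨U, h1, h2, h3⟩ := box_basis hS hn
    obtain ⟨n, hn⟩ := key U h1 h2
    exact ⟨c n, h3 _ hn, n, rfl⟩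

end Pool.Agent.H.MP_360cb4_gt
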